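import Mathlib
import Pool.Agent.TH497.PW.IntFlow
import Pool.Agent.TH362.FP.Pos
import Pool.Agent.Y335.FL.Main
import Pool.Agent.Y358.IN.Dirac2

set_option autoImplicit false

/-!
# Graphs with large degrees (MP_c8786f_co)

Let `G` be a bridgeless multigraph in which the sum of `1 / (max (|N(v)|, 3) - 2)` over all
vertices `v` of degree at least three is less than 126, where `N(v)` is the set of the neighbours
of `v` of degree at least three.  Then `G` has a nowhere-zero 5-flow, and the characteristic
polynomial of its bond matroid is positive at all integers `q ≥ 5`.  In particular this holds if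
all but at most 125 vertices have degree two, and for simple graphs with `n` vertices and minimum
degree `δ ≥ 3` if `n < 126 (δ - 2)`.  The sum is 126 for Tutte's 12-cage.

Proof.  Let `H` be a contraction of `G` (into classes of vertices which need not be connected) which
is bridgeless and has no nowhere-zero flow, with as few edges as possible.  Circuits with at most
eleven edges can be contracted (library `Y335/FL` of helper335), and so can one of two edges which
form a cut; hence `H` has girth at least twelve, and its degrees `D(h)` are at least three (apart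
from isolated vertices).  The Moore bound for irregular graphs (Alon, Hoory, Linial) and convexity
give `∑ 1 / (D(h) - 2) ≥ 126`.  On the other hand let `h` be a class with `D(h) ≥ 3`; it contains
a vertex of degree at least three, as `D(u) + D(v) - 2` is an upper bound of the new degree when an
edge `uv` is contracted.  Let `t` be the number of these vertices in the class.  Such a vertex
`v` has at most `t - 1` neighbours of degree at least three in the class and at most `o(v)` others,
where `∑ o(v) ≤ D(h)`, and so `∑ 1 / (max (|N(v)|, 3) - 2) ≥ t ^ 2 / (t ^ 2 - 3 t + D(h)) ≥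
1 / (D(h) - 2)` (if all `|N(v)|` are at least four; otherwise the sum is at least one).
-/

namespace Pool.Agent.Results.MP_c8786f_co.DegreeWeights

open Pool.Agent.TH497.PW

variable {V E : Type}

/-- The edges with exactly one end in `X`. -/
def boundary [DecidableEq V] [Fintype E] (src dst : E → V) (X : Finset V) : Finset E :=
  Finset.univ.filter (fun e => ¬ (src e ∈ X ↔ dst e ∈ X))

/-- Kirchhoff's law. -/
def IsFlow [DecidableEq V] [Fintype E] (src dst : E → V) (f : E → ℤ) : Prop :=
  ∀ v : V, ∑ e ∈ Finset.univ.filter (fun e => src e = v), f e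
    = ∑ e ∈ Finset.univ.filter (fun e => dst e = v), f e

/-- The degree of `v`; loops are not counted. -/
def properDegree [DecidableEq V] [Fintype E] (src dst : E → V) (v : V) : ℕ :=
  (Finset.univ.filter (fun e => src e ≠ dst e ∧ (src e = v ∨ dst e = v))).card

/-- The number of the components of the graph with the vertices `V` and the edges `A`. -/
noncomputable def components (src dst : E → V) (A : Finset E) : ℕ :=
  Nat.card (SimpleGraph.fromRel
    (fun u v : V => ∃ e ∈ A, src e = u ∧ dst e = v)).ConnectedComponent

/-- The rank of `A` in the cycle matroid of the graph. -/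
noncomputable def cycleRank [Fintype V] (src dst : E → V) (A : Finset E) : ℕ :=
  Fintype.card V - components src dst A

/-- The rank of `A` in the bond matroid of the graph (the dual of the cycle matroid). -/
noncomputable def bondRank [Fintype V] [Fintype E] [DecidableEq E] (src dst : E → V)
    (A : Finset E) : ℕ :=
  A.card + cycleRank src dst Aᶜ - cycleRank src dst Finset.univ

/-- The characteristic polynomial of the bond matroid at the integer `x`. -/
noncomputable def bondCharPoly [Fintype V] [Fintype E] [DecidableEq E] (src dst : E → V)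
    (x : ℤ) : ℤ :=
  ∑ A : Finset E, (-1) ^ A.card * x ^ (bondRank src dst Finset.univ - bondRank src dst A)

theorem isFlow_iff [DecidableEq V] [Fintype E] (src dst : E → V) (f : E → ℤ) :
    IsFlow src dst f ↔
      ∀ v, ∑ e, f e * ((if src e = v then 1 else 0) - (if dst e = v then 1 else 0)) = 0 := by
  unfold IsFlow
  refine forall_congr' fun v => ?_
  rw [Finset.sum_filter, Finset.sum_filter, ← sub_eq_zero, ← Finset.sum_sub_distrib]
  have : ∀ e, (if src e = v then f e else 0) - (if dst e = v then f e else 0)
      = f e * ((if src e = v then 1 else 0) - (if dst e = v then 1 else 0)) := by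
    intro e
    by_cases h1 : src e = v <;> by_cases h2 : dst e = v <;> simp [h1, h2]
  rw [Finset.sum_congr rfl (fun e _ => this e)]

theorem nzf [Fintype V] [DecidableEq V] [Fintype E] [DecidableEq E] (src dst : E → V)
    (h : Pool.Agent.TH676.Z.FlowOn src dst ∅ ∅) : NZF src dst := by
  obtain ⟨f, h1, _, h3⟩ := h
  refine ⟨f, fun e => h3 e (Finset.notMem_empty _) (Finset.notMem_empty _), fun x => ?_⟩
  rw [← h1 x]
  unfold Pool.Agent.TH676.Z.bd
  refine Finset.sum_congr rfl fun e _ => ?_
  unfold ic
  by_cases h4 : src e = x <;> by_cases h5 : dst e = x <;> simp [h4, h5]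

theorem charPoly_pos [Fintype V] [DecidableEq V] [Fintype E] [DecidableEq E] (src dst : E → V)
    (f : E → ℤ) (h1 : IsFlow src dst f) (h2 : ∀ e, 1 ≤ |f e| ∧ |f e| ≤ 4) (q : ℕ) (hq : 5 ≤ q) :
    0 < bondCharPoly src dst q :=
  Pool.Agent.TH362.FP.chr_pos src dst f h2 h1 q hq

open Classical in
/-- The neighbours of `v` (different from `v`) of degree at least three. -/
noncomputable def neighbours [Fintype V] [DecidableEq V] [Fintype E] (src dst : E → V) (v : V) :
    Finset V :=
  Finset.univ.filter (fun w => (v ≠ w ∧ ∃ e, (src e = v ∧ dst e = w) ∨ (src e = w ∧ dst e = v)) ∧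
    3 ≤ properDegree src dst w)

theorem result :
    ∀ (V E : Type) [Fintype V] [DecidableEq V] [Fintype E] [DecidableEq E] (src dst : E → V),
      ∑ v ∈ Finset.univ.filter (fun v => 3 ≤ properDegree src dst v),
        1 / (((max (neighbours src dst v).card 3 : ℕ) : ℝ) - 2) < 126 →
      (∀ Y : Finset V, (boundary src dst Y).card ≠ 1) →
      (∃ f : E → ℤ, IsFlow src dst f ∧ ∀ e, 1 ≤ |f e| ∧ |f e| ≤ 4) ∧
      ∀ q : ℕ, 5 ≤ q → 0 < bondCharPoly src dst q := by
  intro V E _ _ _ _ src dst hw hb
  have hdg : ∀ v, properDegree src dst v = Pool.Agent.Y335.FL.dg src dst v := fun v => rfl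
  have hnb : ∀ v, neighbours src dst v = Pool.Agent.Y358.IN.nt src dst v := by
    intro v
    ext w
    simp only [neighbours, Pool.Agent.Y358.IN.nt, Finset.mem_filter, Finset.mem_univ, true_and]
    exact Iff.rfl
  have hw' : ∑ v ∈ Finset.univ.filter (fun v => 3 ≤ Pool.Agent.Y335.FL.dg src dst v),
      Pool.Agent.Y358.IN.wu src dst v < 126 := by
    unfold Pool.Agent.Y358.IN.wu
    simp only [← hnb, ← hdg]
    exact hw
  have hfl := Pool.Agent.Y358.IN.flow_of_weight' Pool.Agent.Y335.FL.contract_all
    Pool.Agent.Y335.FL.ahl src dst hw' (fun Y _ => by rw [Finset.sdiff_empty]; exact hb Y)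
  obtain ⟨F, hF, hF0⟩ := int_flow src dst (nzf src dst hfl)
  have hF1 := (isFlow_iff src dst F).mpr hF0
  exact ⟨⟨F, hF1, hF⟩, fun q hq => charPoly_pos src dst F hF1 hF q hq⟩

/-- Consequence: minimum degree at least `δ ≥ 3` and fewer than `126 (δ - 2)` vertices. -/
theorem minimum_degree (V E : Type) [Fintype V] [DecidableEq V] [Fintype E] [DecidableEq E]
    (src dst : E → V) (δ : ℕ) (hδ : 3 ≤ δ) (hd : ∀ v, δ ≤ (neighbours src dst v).card)
    (hn : Fintype.card V < 126 * (δ - 2)) (hb : ∀ Y : Finset V, (boundary src dst Y).card ≠ 1) :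
    ∃ f : E → ℤ, IsFlow src dst f ∧ ∀ e, 1 ≤ |f e| ∧ |f e| ≤ 4 := by
  refine (result V E src dst ?_ hb).1
  have h3 : (3 : ℝ) ≤ δ := by exact_mod_cast hδ
  have h1 : ∀ v ∈ Finset.univ.filter (fun v => 3 ≤ properDegree src dst v),
      1 / (((max (neighbours src dst v).card 3 : ℕ) : ℝ) - 2) ≤ 1 / ((δ : ℝ) - 2) := by
    intro v _
    have h4 : (δ : ℝ) ≤ ((max (neighbours src dst v).card 3 : ℕ) : ℝ) := by
      exact_mod_cast (hd v).trans (le_max_left _ _)
    exact one_div_le_one_div_of_le (by linarith) (by linarith)
  refine lt_of_le_of_lt (Finset.sum_le_card_nsmul _ _ _ h1) ?_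
  rw [nsmul_eq_mul, mul_one_div, div_lt_iff₀ (by linarith)]
  have h5 : (((Finset.univ.filter (fun v => 3 ≤ properDegree src dst v)).card : ℕ) : ℝ) <
      ((126 * (δ - 2) : ℕ) : ℝ) := by
    exact_mod_cast lt_of_le_of_lt (Finset.card_le_univ _) hn
  rw [Nat.cast_mul, Nat.cast_sub (by omega)] at h5
  push_cast at h5
  exact h5

/-- Consequence: at most 125 vertices of degree at least three. -/
theorem few_branch_vertices (V E : Type) [Fintype V] [DecidableEq V] [Fintype E] [DecidableEq E]
    (src dst : E → V)
    (hn : (Finset.univ.filter (fun v => 3 ≤ properDegree src dst v)).card ≤ 125)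
    (hb : ∀ Y : Finset V, (boundary src dst Y).card ≠ 1) :
    ∃ f : E → ℤ, IsFlow src dst f ∧ ∀ e, 1 ≤ |f e| ∧ |f e| ≤ 4 := by
  refine (result V E src dst ?_ hb).1
  have h1 : ∀ v ∈ Finset.univ.filter (fun v => 3 ≤ properDegree src dst v),
      1 / (((max (neighbours src dst v).card 3 : ℕ) : ℝ) - 2) ≤ 1 := by
    intro v _
    have h4 : (3 : ℝ) ≤ ((max (neighbours src dst v).card 3 : ℕ) : ℝ) := by
      exact_mod_cast le_max_right _ _
    rw [div_le_one (by linarith)]
    linarith
  refine lt_of_le_of_lt (Finset.sum_le_card_nsmul _ _ _ h1) ?_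
  rw [nsmul_eq_mul, mul_one]
  have h5 : (((Finset.univ.filter (fun v => 3 ≤ properDegree src dst v)).card : ℕ) : ℝ) ≤ 125 := by
    exact_mod_cast hn
  linarith

end Pool.Agent.Results.MP_c8786f_co.DegreeWeights
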