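import Mathlib
import Pool.Agent.TH497.PW.IntFlow
import Pool.Agent.TH362.FP.Pos
import Pool.Agent.Y335.FL.Main
import Pool.Agent.Y335.FL.Local11

set_option autoImplicit false

/-!
# Cycles with at most eleven new edges and nowhere-zero 5-flows (MP_c8786f_co)

Let `C_1, ..., C_m` be cycles (connected or not: supports of flows with values in `{0, 1, -1}`) of a
multigraph `G`, each with at most eleven edges outside the union of the earlier ones, and let `F` be
their union.  Suppose that every edge cut which avoids `F` has at least three edges and that, with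
at most ten exceptions, those with three edges have a private edge (an edge in no other cut with at
most four edges which avoids `F`) or two edges in no other such cut with three edges.  Then `G` has
a nowhere-zero 5-flow, and the characteristic polynomial of the bond matroid of `G` is positive at
all integers `q ≥ 5`.

In particular (`meetsThreeCuts`) this holds if `F` meets all edge cuts with at most three edges; for
example for all cyclically 4-edge-connected cubic graphs with a 2-factor in which every circuit has
at most eleven edges, and for all 3-edge-connected graphs in which every 3-edge-cut meets a circuit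
with at most eleven edges.

Proof.  (1) Circuits with at most eleven edges can be contracted: for the boundary values `b`
(nonzero, with sum zero) at the `k` vertices of a circuit `C` let `F(b)` be the number of
`Z_5`-functions on `G - E(C)` with boundary `b` which are nonzero outside a fixed set of edges.  If
none of these functions can be completed on `C` then `F(b) = 0` for all `b` whose partial sums miss
an element of `Z_5`.  As `F` is a combination of the indicator functions of the events that all
blocks of a set partition of the `k` vertices have sum zero, and as the kernel evaluates, for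
`k = 5, ..., 11`, an integer vector on the boundary values which is orthogonal to all these
indicator functions and positive at all `b` whose partial sums take all five values, `F = 0`.
Hence a flow of `G / C` yields a flow of `G`, and in the same way (successively, by circuits of
the graph in which the earlier cycles are contracted) the cycles `C_m, ..., C_1` are undone.

(2) `G / F` has a nowhere-zero 5-flow, since it satisfies the local condition for 3-edge-cuts of the
starting files (`H222F/Local`, whose cycles have at most four new edges).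
-/

namespace Pool.Agent.Results.MP_c8786f_co.ElevenNewEdges

open Pool.Agent.TH497.PW

variable {V E : Type}

/-- The edges with exactly one end in `X`. -/
def boundary [DecidableEq V] [Fintype E] (src dst : E → V) (X : Finset V) : Finset E :=
  Finset.univ.filter (fun e => ¬ (src e ∈ X ↔ dst e ∈ X))

/-- Kirchhoff's law. -/
def IsFlow [DecidableEq V] [Fintype E] (src dst : E → V) (f : E → ℤ) : Prop :=
  ∀ v : V, ∑ e ∈ Finset.univ.filter (fun e => src e = v), f e
    = ∑ e ∈ Finset.univ.filter (fun e => dst e = v), f e

/-- The boundary of `X` contains an edge which lies in no other edge cut with at most four edges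
avoiding `F`, or two edges which lie in no other edge cut with three edges avoiding `F`. -/
def HasPrivateEdge [DecidableEq V] [Fintype E] [DecidableEq E] (src dst : E → V) (F : Finset E)
    (X : Finset V) : Prop :=
  (∃ e ∈ boundary src dst X, ∀ Y : Finset V, (boundary src dst Y).card ≤ 4 →
    Disjoint (boundary src dst Y) F → e ∈ boundary src dst Y →
      boundary src dst Y = boundary src dst X) ∨
  (∃ e ∈ boundary src dst X, ∃ e' ∈ boundary src dst X, e ≠ e' ∧ ∀ Y : Finset V,
    (boundary src dst Y).card = 3 → Disjoint (boundary src dst Y) F →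
      (e ∈ boundary src dst Y ∨ e' ∈ boundary src dst Y) →
        boundary src dst Y = boundary src dst X)

/-- The number of the components of the graph with the vertices `V` and the edges `A`. -/
noncomputable def components (src dst : E → V) (A : Finset E) : ℕ :=
  Nat.card (SimpleGraph.fromRel
    (fun u v : V => ∃ e ∈ A, src e = u ∧ dst e = v)).ConnectedComponent

/-- The rank of `A` in the cycle matroid of the graph. -/
noncomputable def cycleRank [Fintype V] (src dst : E → V) (A : Finset E) : ℕ :=
  Fintype.card V - components src dst A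

/-- The rank of `A` in the bond matroid of the graph (the dual of the cycle matroid). -/
noncomputable def bondRank [Fintype V] [Fintype E] [DecidableEq E] (src dst : E → V)
    (A : Finset E) : ℕ :=
  A.card + cycleRank src dst Aᶜ - cycleRank src dst Finset.univ

/-- The characteristic polynomial of the bond matroid at the integer `x`. -/
noncomputable def bondCharPoly [Fintype V] [Fintype E] [DecidableEq E] (src dst : E → V)
    (x : ℤ) : ℤ :=
  ∑ A : Finset E, (-1) ^ A.card * x ^ (bondRank src dst Finset.univ - bondRank src dst A)

theorem isFlow_iff [DecidableEq V] [Fintype E] (src dst : E → V) (f : E → ℤ) :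
    IsFlow src dst f ↔
      ∀ v, ∑ e, f e * ((if src e = v then 1 else 0) - (if dst e = v then 1 else 0)) = 0 := by
  unfold IsFlow
  refine forall_congr' fun v => ?_
  rw [Finset.sum_filter, Finset.sum_filter, ← sub_eq_zero, ← Finset.sum_sub_distrib]
  have : ∀ e, (if src e = v then f e else 0) - (if dst e = v then f e else 0)
      = f e * ((if src e = v then 1 else 0) - (if dst e = v then 1 else 0)) := by
    intro e
    by_cases h1 : src e = v <;> by_cases h2 : dst e = v <;> simp [h1, h2]
  rw [Finset.sum_congr rfl (fun e _ => this e)]

theorem nzf [Fintype V] [DecidableEq V] [Fintype E] [DecidableEq E] (src dst : E → V)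
    (h : Pool.Agent.TH676.Z.FlowOn src dst ∅ ∅) : NZF src dst := by
  obtain ⟨f, h1, _, h3⟩ := h
  refine ⟨f, fun e => h3 e (Finset.notMem_empty _) (Finset.notMem_empty _), fun x => ?_⟩
  rw [← h1 x]
  unfold Pool.Agent.TH676.Z.bd
  refine Finset.sum_congr rfl fun e _ => ?_
  unfold ic
  by_cases h4 : src e = x <;> by_cases h5 : dst e = x <;> simp [h4, h5]

theorem charPoly_pos [Fintype V] [DecidableEq V] [Fintype E] [DecidableEq E] (src dst : E → V)
    (f : E → ℤ) (h1 : IsFlow src dst f) (h2 : ∀ e, 1 ≤ |f e| ∧ |f e| ≤ 4) (q : ℕ) (hq : 5 ≤ q) :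
    0 < bondCharPoly src dst q :=
  Pool.Agent.TH362.FP.chr_pos src dst f h2 h1 q hq

/-- the reduction modulo five of a flow with values in `{0, 1, -1}` -/
theorem mod5 [Fintype V] [DecidableEq V] [Fintype E] [DecidableEq E] (src dst : E → V)
    (C : Finset E) (h : ∃ z : E → ℤ, IsFlow src dst z ∧ (∀ e, z e = 0 ∨ z e = 1 ∨ z e = -1) ∧
      ∀ e, z e ≠ 0 ↔ e ∈ C) :
    ∃ z : E → ZMod 5, (∀ v, Pool.Agent.TH676.Z.bd src dst z v = 0) ∧
      (∀ e, z e = 0 ∨ z e = 1 ∨ z e = -1) ∧ ∀ e, z e ≠ 0 ↔ e ∈ C := by
  obtain ⟨z, h1, h2, h3⟩ := h
  refine ⟨fun e => ((z e : ℤ) : ZMod 5), fun v => ?_, fun e => ?_, fun e => ?_⟩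
  · have h4 := h1 v
    rw [Finset.sum_filter, Finset.sum_filter, ← sub_eq_zero, ← Finset.sum_sub_distrib] at h4
    have h5 := congrArg (fun t : ℤ => (t : ZMod 5)) h4
    simp only [Int.cast_sum, Int.cast_sub, Int.cast_zero] at h5
    refine Eq.trans ?_ h5
    unfold Pool.Agent.TH676.Z.bd
    rw [Finset.sum_sub_distrib, Finset.sum_sub_distrib]
    congr 1 <;>
    · refine Finset.sum_congr rfl fun e _ => ?_
      split_ifs <;> simp
  · rcases h2 e with h | h | h <;> simp [h]
  · rw [← h3 e]
    have h10 : (1 : ZMod 5) ≠ 0 := by decide
    rcases h2 e with h | h | h <;> simp [h, h10]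

theorem result :
    ∀ (V E : Type) [Fintype V] [DecidableEq V] [Fintype E] [DecidableEq E] (src dst : E → V)
      (m : ℕ) (C : Fin m → Finset E),
      (∀ i, ∃ z : E → ℤ, IsFlow src dst z ∧ (∀ e, z e = 0 ∨ z e = 1 ∨ z e = -1) ∧
        ∀ e, z e ≠ 0 ↔ e ∈ C i) →
      (∀ i, (C i \ (Finset.univ.filter (fun j => j < i)).biUnion C).card ≤ 11) →
      (∀ X : Finset V, X.Nonempty → X ≠ Finset.univ →
        Disjoint (boundary src dst X) (Finset.univ.biUnion C) → 3 ≤ (boundary src dst X).card) →
      (∀ X : Fin 11 → Finset V, (∀ i j, i ≠ j → Disjoint (X i) (X j)) →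
        (∀ i, (boundary src dst (X i)).card = 3 ∧
          Disjoint (boundary src dst (X i)) (Finset.univ.biUnion C)) →
        ∃ i, HasPrivateEdge src dst (Finset.univ.biUnion C) (X i)) →
      (∃ f : E → ℤ, IsFlow src dst f ∧ ∀ e, 1 ≤ |f e| ∧ |f e| ≤ 4) ∧
      ∀ q : ℕ, 5 ≤ q → 0 < bondCharPoly src dst q := by
  intro V E _ _ _ _ src dst m C hC hnew h3 hX
  have hfl := Pool.Agent.Y335.FL.local11 Pool.Agent.Y335.FL.quot' Pool.Agent.Y335.FL.lift_all
    V E src dst m C (fun i => mod5 src dst (C i) (hC i)) hnew h3 hX
  obtain ⟨F, hF, hF0⟩ := int_flow src dst (nzf src dst hfl)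
  have hF1 := (isFlow_iff src dst F).mpr hF0
  exact ⟨⟨F, hF1, hF⟩, fun q hq => charPoly_pos src dst F hF1 hF q hq⟩

/-- Consequence: all edge cuts with at most three edges meet the union of the cycles. -/
theorem meetsThreeCuts :
    ∀ (V E : Type) [Fintype V] [DecidableEq V] [Fintype E] [DecidableEq E] (src dst : E → V)
      (m : ℕ) (C : Fin m → Finset E),
      (∀ i, ∃ z : E → ℤ, IsFlow src dst z ∧ (∀ e, z e = 0 ∨ z e = 1 ∨ z e = -1) ∧
        ∀ e, z e ≠ 0 ↔ e ∈ C i) →
      (∀ i, (C i \ (Finset.univ.filter (fun j => j < i)).biUnion C).card ≤ 11) →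
      (∀ X : Finset V, X.Nonempty → X ≠ Finset.univ →
        Disjoint (boundary src dst X) (Finset.univ.biUnion C) → 4 ≤ (boundary src dst X).card) →
      ∃ f : E → ℤ, IsFlow src dst f ∧ ∀ e, 1 ≤ |f e| ∧ |f e| ≤ 4 := by
  intro V E _ _ _ _ src dst m C hC hnew h4
  refine (result V E src dst m C hC hnew (fun X h1 h2 h3 => by have := h4 X h1 h2 h3; omega)
    ?_).1
  intro X _ hcd
  exfalso
  have h1 := hcd 0
  have hne : (X 0).Nonempty := by
    rw [Finset.nonempty_iff_ne_empty]
    intro h
    have h2 := h1.1
    rw [h] at h2
    simp [boundary] at h2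
  have hnu : X 0 ≠ Finset.univ := by
    intro h
    have h2 := h1.1
    rw [h] at h2
    simp [boundary] at h2
  have := h4 (X 0) hne hnu h1.2
  omega

end Pool.Agent.Results.MP_c8786f_co.ElevenNewEdges
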